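import Pool.Agent.helper65.GD.SpecF

/-! Row XPB of the block `GF` (MP_ea335c_an). -/

set_option autoImplicit false

namespace Pool.Agent.GD

open Finset Metric Filter Topology

lemma XPB_gen (hAV : XAV_stmt) (a ω κ : ℕ → ℂ) (A s : ℕ) (M : ℝ) (hκ : Cara κ)
    (hM : ∀ y : ℂ, ‖y‖ = 1 → ‖ZZ a ω y A (s + 1)‖ + ‖ZZ a ω y A s‖ ≤ M) :
    ‖∑ i ∈ range (s + 1 + 1), a (A + (s + 1) - i) * cv ω κ i‖ ≤ M := by
  refine hAV ω (fun i => a (A + (s + 1) - i)) κ (s + 1) M hκ fun y hy => ?_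
  have e : ∑ i ∈ Icc 1 (s + 1), a (A + (s + 1) - i) * gy ω y (i - 1) = ZZ a ω y A s := by
    unfold ZZ
    refine Finset.sum_nbij' (fun i => i - 1) (fun i => i + 1) ?_ ?_ ?_ ?_ ?_
    · intro i hi
      rw [mem_Icc] at hi
      rw [mem_range]
      omega
    · intro i hi
      rw [mem_range] at hi
      rw [mem_Icc]
      omega
    · intro i hi
      rw [mem_Icc] at hi
      show i - 1 + 1 = i
      omega
    · intro i hi
      show i + 1 - 1 = i
      omega
    · intro i hi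
      rw [mem_Icc] at hi
      show a (A + (s + 1) - i) * gy ω y (i - 1) = a (A + s - (i - 1)) * gy ω y (i - 1)
      rw [show A + (s + 1) - i = A + s - (i - 1) by omega]
  have h := hM y hy
  rw [← e] at h
  exact h

theorem XPB (h1 : XAV_stmt) (h2 : XZB_stmt) : XPB_stmt := by
  intro N w x κ A hA hκ hA1
  refine ⟨?_, ?_⟩
  · refine XPB_gen h1 (ex 2 (mom w x)) (ex (-2) (mom w x)) κ A 0 _ hκ fun y hy => ?_
    obtain ⟨z0, z1⟩ := h2 N w x y A hA hy hA1
    have z := z1 1 le_rfl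
    have : ((1 : ℕ) : ℝ) - 1 = 0 := by norm_num
    rw [this, zero_mul, zero_div, mul_zero, add_zero] at z
    calc _ ≤ (2 * (A : ℝ) + 1) + (A + 1) := add_le_add z z0
      _ = 3 * A + 2 := by ring
  · intro r hr
    obtain ⟨s, rfl⟩ : ∃ s, r = s + 1 := ⟨r - 1, by omega⟩
    refine XPB_gen h1 (ex 2 (mom w x)) (ex (-2) (mom w x)) κ A s _ hκ fun y hy => ?_
    obtain ⟨z0, z1⟩ := h2 N w x y A hA hy hA1
    have za := z1 (s + 1) (by omega)
    have zb := z1 s (by omega)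
    refine (add_le_add za zb).trans (le_of_eq ?_)
    push_cast
    ring

end Pool.Agent.GD
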