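import Pool.Agent.helper65.GD.SpecF

/-! Row XTB of the block `GF` (MP_ea335c_an). -/

set_option autoImplicit false

namespace Pool.Agent.GD

open Finset Metric Filter Topology

theorem XTB (h1 : XT2_stmt) (h2 : XT3_stmt) : XTB_stmt := by
  intro N w x y hA hy
  obtain ⟨Θ, hΘ⟩ := h1 N w x y hA hy
  have hS := h2 N w x y hA hy
  have hSQ : Ser (fun n => Complex.exp (-(Θ * Complex.I)) * gy (ex (-1) (mom w x)) y n)
      (fun z => Complex.exp (-(Θ * Complex.I)) * TF w x y z) := ITE_ser_mul _ _ _ hS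
  have hd := (CO4 _ _ hSQ).1
  obtain ⟨q, hq, hQ0, hq2⟩ := car_holds (fun z => Complex.exp (-(Θ * Complex.I)) * TF w x y z) hd hΘ
  have hcoef : N2b689f5b.coeff (fun z => Complex.exp (-(Θ * Complex.I)) * TF w x y z) =
      fun n => Complex.exp (-(Θ * Complex.I)) * gy (ex (-1) (mom w x)) y n :=
    CO2 _ _ _ (CO1 _ hd) hSQ
  have hT0 : TF w x y 0 = 1 := by simp [TF]
  have hqe : q = gy (ex (-1) (mom w x)) y := by
    funext n
    have h3 := hq2 n
    rw [hcoef] at h3
    simp only [hT0, mul_one] at h3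
    exact (mul_left_cancel₀ (Complex.exp_ne_zero _) h3).symm
  rw [← hqe]
  exact hq

end Pool.Agent.GD
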